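import Pool.Agent.H37.CPX.Targets

/-!
# CPX, row WID: identities for the weights
-/

set_option autoImplicit false

namespace Pool.Agent.H38.CPX

open Finset Pool.Agent.H37.CPX

theorem wid_split3 (x : ℝ) {N t t' c : ℕ} (h1 : t' ≤ N) (h2 : t + c ≤ t') :
    x ^ (N - t) = x ^ (N - t') * x ^ (t' - (t + c)) * x ^ c := by
  rw [← pow_add, ← pow_add]
  congr 1
  omega

theorem wid_split2 (x : ℝ) {N t t' : ℕ} (h1 : t' ≤ N) (h2 : t ≤ t') :
    x ^ (N - t) = x ^ (N - t') * x ^ (t' - t) := by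
  rw [← pow_add]
  congr 1
  omega

theorem wid_inv (x : ℝ) (hx : x ≠ 0) {t t' : ℕ} (h2 : t ≤ t') :
    (1 / x) ^ t' * x ^ (t' - t) = (1 / x) ^ t := by
  obtain ⟨d, rfl⟩ := Nat.exists_eq_add_of_le h2
  rw [Nat.add_sub_cancel_left, pow_add, mul_assoc, ← mul_pow, one_div_mul_cancel hx, one_pow,
    mul_one]

theorem wid_half (e : ℕ) (he : Even e) : ((2 : ℝ) ^ (e / 2)) ^ 2 = 2 ^ e := by
  rw [← pow_mul, Nat.div_mul_cancel he.two_dvd]

theorem pf_WID : S_WID := by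
  intro N m k w0 P z t t' c uX uY nl nh hN hz hP hPe htt hN'
  have hP0 : (0 : ℝ) < P := by
    have : (16 : ℝ) ≤ P := by exact_mod_cast hP
    linarith
  have hN0 : (0 : ℝ) < N := by exact_mod_cast hN
  have hz0 : (0 : ℝ) < z := by exact_mod_cast hz
  have hz1 : (1 : ℝ) ≤ z := by exact_mod_cast hz
  have hb0 : 0 < bb P := by unfold bb; positivity
  have hc0 : 0 < cc P := by unfold cc; positivity
  have he16 : Even (P ^ 16) := (Nat.even_pow' (by norm_num)).2 hPe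
  have he8 : Even (P ^ 8) := (Nat.even_pow' (by norm_num)).2 hPe
  have hb2 : bb P ^ 2 = 2 ^ (P ^ 16) := by unfold bb; exact wid_half _ he16
  have hc2 : cc P ^ 2 = 2 ^ (P ^ 8) := by unfold cc; exact wid_half _ he8
  have hle : P ^ 8 ≤ P ^ 16 := Nat.pow_le_pow_right (by omega) (by norm_num)
  have hf : (0 : ℝ) < 1 - 1 / (16 * z) := by
    have h1 : 1 / (16 * (z : ℝ)) < 1 := by
      rw [div_lt_one (by positivity)]; linarith
    linarith
  have hq16 : (0 : ℝ) < (P : ℝ) ^ 16 := by positivity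
  have hq8 : (0 : ℝ) < (P : ℝ) ^ 8 := by positivity
  have h216 : (0 : ℝ) < (2 : ℝ) ^ (P ^ 16) := pow_pos two_pos _
  have hMM : 0 < MM N m k w0 P z := by
    have h1 : 0 < Lam N P := by
      unfold Lam
      exact mul_pos (mul_pos (by positivity) hq16) h216
    have h2 : 0 < tau m k w0 P := by
      unfold tau
      exact div_pos (by positivity) (pow_pos hq8 _)
    have h3 : 0 < vol N P := by
      unfold vol
      exact mul_pos (pow_pos hq16 _) (pow_pos h216 _)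
    unfold MM
    exact mul_pos (mul_pos (mul_pos (by norm_num) (pow_pos h1 _)) (by positivity)) (mul_pos h2 h3)
  have hLam : 0 < Lam N P := by
    unfold Lam
    exact mul_pos (mul_pos (by positivity) hq16) h216
  refine ⟨hb2, hc2, ?_, hb0, hc0, ?_, ?_, ?_, hMM, ?_, ?_, ?_, ?_, ?_, ?_, ?_, ?_, ?_, ?_, ?_⟩
  · rw [div_pow, hb2, hc2, div_eq_iff (pow_pos two_pos _).ne', ← pow_add, Nat.sub_add_cancel hle]
  · unfold kX
    positivity
  · unfold kY
    exact mul_pos (mul_pos (mul_pos (mul_pos (mul_pos (mul_pos (by positivity) (pow_pos hb0 _))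
      (pow_pos (by positivity) _)) (pow_pos (by positivity) _)) (pow_pos (by positivity) _))
      (pow_pos (by positivity) _)) (pow_pos hf _)
  · unfold mM
    exact mul_pos (mul_pos hMM (pow_pos (by positivity) _)) (by positivity)
  · intro h
    unfold kX
    rw [wid_split3 ((P : ℝ) ^ 8) hN' h, pow_add ((P : ℝ) / 4)]
    have h1 : ((P : ℝ) / 4) ^ c = ((P : ℝ) ^ 8) ^ c * (1 / (4 * (P : ℝ) ^ 7)) ^ c := by
      rw [← mul_pow]
      congr 1
      field_simp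
    rw [h1]
    ring
  · unfold kX
    rw [wid_split2 ((P : ℝ) ^ 8) hN' htt, pow_add (1 / (8 * (N : ℝ)))]
    ring
  · unfold kX
    rw [pow_succ (1 / 32 : ℝ) nl]; ring
  · unfold kX
    rw [pow_succ (8 / 7 : ℝ) nh]; ring
  · unfold kY
    rw [wid_split2 (bb P) hN' htt, pow_add (1 / (64 * (N : ℝ) * z)), ← wid_inv _ hq16.ne' htt]
    ring
  · intro h
    unfold kY
    rw [wid_split3 (bb P) hN' h, pow_add (cc P / 4), ← wid_inv _ hq16.ne' htt]
    have h1 : (cc P / 4) ^ c = bb P ^ c * (1 / (4 * (bb P / cc P))) ^ c := by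
      rw [← mul_pow]
      congr 1
      field_simp
    rw [h1]
    ring
  · unfold kY
    rw [pow_succ (cc P / (32 * (z : ℝ))) nl]; ring
  · unfold kY
    rw [pow_succ (1 - 1 / (16 * (z : ℝ))) nh]; ring
  · unfold mM
    have h1 : (1 / Lam N P) ^ t' = (1 / Lam N P) ^ t * (1 / Lam N P) ^ (t' - t) := by
      rw [← pow_add]; congr 1; omega
    have h2 : (1 / Lam N P) * ((P : ℝ) ^ 16 * (2 : ℝ) ^ (P ^ 16)) = 1 / (8 * (N : ℝ)) := by
      unfold Lam
      obtain ⟨q, hq⟩ : ∃ q : ℝ, q = (2 : ℝ) ^ (P ^ 16) := ⟨_, rfl⟩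
      obtain ⟨p, hp⟩ : ∃ p : ℝ, p = (P : ℝ) ^ 16 := ⟨_, rfl⟩
      rw [← hq, ← hp]
      have hq1 : q ≠ 0 := by rw [hq]; exact h216.ne'
      have hp1 : p ≠ 0 := by rw [hp]; exact hq16.ne'
      field_simp
    rw [h1, ← h2, mul_pow (1 / Lam N P), mul_pow ((P : ℝ) ^ 16)]
    obtain ⟨q, hq⟩ : ∃ q : ℝ, q = ((2 : ℝ) ^ (P ^ 16)) ^ (t' - t) := ⟨_, rfl⟩
    rw [← hq]
    ring
  · unfold mM
    have h1 : (1 / 4 : ℝ) ^ (nl + 1 + nh) = (1 / 4) ^ (nl + nh) * (1 / 4) := by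
      rw [← pow_succ]; congr 1; omega
    rw [h1]; ring
  · unfold mM
    have h1 : (1 / 4 : ℝ) ^ (nl + (nh + 1)) = (1 / 4) ^ (nl + nh) * (1 / 4) := by
      rw [← pow_succ]; congr 1
    rw [h1]; ring

end Pool.Agent.H38.CPX
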